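import Pool.Agent.H242.GX.Stm6
import Pool.Agent.H441.GX.UNIQ

/-!
# GU-ODE (project of helper242): the first order equation for general projective involutions

helper722. Uses `had2` and `first_order` of `Pool/Agent/H441/GX/UNIQ.lean` (helper441).
-/

set_option autoImplicit false

open Set Filter Topology
open scoped ContDiff

namespace Pool.Agent.H722.GU

open Pool.Agent.H242.GX Pool.Agent.H441.GX

theorem gu_ODE (hEVN : S_EVN) (hLIN : S_LIN) (hHAD : S_HAD) (hDER : S_DER) : S_ODE := by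
  intro p X Z hp hW H hH κ hκ hInv
  obtain ⟨X', Z', hW', hodd, hd1, hd2, hd3⟩ := hEVN X Z hW.toWeb κ hκ
  obtain ⟨u, K, hu, hK, hexp, hder⟩ := had2 hHAD H hH.smooth hH.zero
  have hPPu : PP u := ⟨hu, fun φ => by
    rw [← hder, ← hder]
    simp only [hH.per]⟩
  have hfo := first_order hLIN hHAD X' Z' hW' H u K hPPu hK hexp (hodd H hInv)
  have hfun : (fun θ => deriv (fun y => H (θ, y)) 0) = u := funext hder
  rw [hfun]
  refine ⟨hu.differentiable (by simp), fun θ => ?_⟩
  rw [hder θ]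
  obtain ⟨ha, -, hb2⟩ := hDER p X Z hW θ
  have h1 := hfo θ
  have hb := (hW.der2 θ).ne'
  have hr : rho p θ ≠ 0 := (hp.pos θ).ne'
  rw [hd1, hd2, hd3, ha, hb2] at h1
  have h2 : deriv (fun t => (X (θ, t)).2) 0 *
      (3 * rho p θ * deriv u θ - (deriv (rho p) θ - 3 * κ θ * rho p θ ^ 2) * u θ) = 0 := by
    have h3 : deriv (fun t => (X (θ, t)).2) 0 *
      (3 * rho p θ * deriv u θ - (deriv (rho p) θ - 3 * κ θ * rho p θ ^ 2) * u θ) =
      3 * rho p θ ^ 2 *
      (deriv (fun t => (X (θ, t)).2) 0 * (1 / rho p θ) * deriv u θ +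
        (-(deriv (fun t => (X (θ, t)).2) 0) * deriv (rho p) θ / (3 * rho p θ ^ 2) +
          κ θ * deriv (fun t => (X (θ, t)).2) 0) * u θ) := by
      field_simp
      ring
    rw [h3, h1, mul_zero]
  have h4 := (mul_eq_zero.1 h2).resolve_left hb
  linarith

end Pool.Agent.H722.GU
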